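import Pool.Agent.Y505.RL.NF
import Pool.Agent.Y505.RM.Form

/-!
# One cubic form in twelve variables without lines over all number fields of degree prime to 3

`F` is an explicit cubic form in 12 variables with integer coefficients.  For every number field
`K` whose degree over `ℚ` is not divisible by three (in particular for `K = ℚ`) the cubic
hypersurface `F = 0` contains no line defined over `K`.  Moreover over every number field `K` (of
any degree) there is a cubic form in 12 variables without lines defined over `K`.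
-/

set_option autoImplicit false

namespace Pool.Agent.Results.MP_1ae330_nt.DegreePrimeToThree

open MvPolynomial

/-- The norm form of `ℤ[T] / (T³ - T - 1)`: the norm of `a + b T + c T²`. -/
def norm3 {R : Type} [CommRing R] (a b c : R) : R :=
  a ^ 3 + b ^ 3 + c ^ 3 + 2 * a ^ 2 * c + a * c ^ 2 - a * b ^ 2 - b * c ^ 2 - 3 * a * b * c

/-- The cubic form
`norm3 x₀ x₁ x₂ + 2 norm3 x₃ x₄ x₅ + 4 norm3 x₆ x₇ x₈ + x₉ x₁₀² + x₉² x₁₁ + 2 x₁₀ x₁₁²`. -/
noncomputable def F : MvPolynomial (Fin 12) ℤ :=
  norm3 (X 0) (X 1) (X 2) + 2 * norm3 (X 3) (X 4) (X 5) + 4 * norm3 (X 6) (X 7) (X 8) +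
    X 9 * X 10 ^ 2 + X 9 ^ 2 * X 11 + 2 * (X 10 * X 11 ^ 2)

open Pool.Agent.Y505.RL

lemma aeval_norm3 {R : Type} [CommRing R] (v : Fin 12 → R) (p q r : MvPolynomial (Fin 12) ℤ) :
    aeval v (norm3 p q r) = norm3 (aeval v p) (aeval v q) (aeval v r) := by
  unfold norm3
  simp only [map_add, map_sub, map_mul, map_pow, map_ofNat]

/-- index of the `j`-th variable of the `i`-th block -/
def blk (i j : Fin 3) : Fin 12 := ⟨3 * i.val + j.val, by omega⟩

lemma aeval_F {R : Type} [CommRing R] (v : Fin 12 → R) :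
    aeval v F = M 2 (fun i j => v (blk i j)) + G 2 (v 9) (v 10) (v 11) := by
  unfold F M G N
  simp only [map_add, map_mul, map_pow, map_ofNat, aeval_norm3, aeval_X]
  unfold norm3
  have e00 : blk 0 0 = 0 := rfl
  have e01 : blk 0 1 = 1 := rfl
  have e02 : blk 0 2 = 2 := rfl
  have e10 : blk 1 0 = 3 := rfl
  have e11 : blk 1 1 = 4 := rfl
  have e12 : blk 1 2 = 5 := rfl
  have e20 : blk 2 0 = 6 := rfl
  have e21 : blk 2 1 = 7 := rfl
  have e22 : blk 2 2 = 8 := rfl
  rw [e00, e01, e02, e10, e11, e12, e20, e21, e22]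
  ring

lemma coord_cases (i : Fin 12) : (∃ j l, i = blk j l) ∨ i = 9 ∨ i = 10 ∨ i = 11 := by
  revert i
  unfold blk
  decide

lemma norm3_homog (i j k : Fin 12) :
    (norm3 (X i) (X j) (X k) : MvPolynomial (Fin 12) ℤ).IsHomogeneous 3 := by
  have hX : ∀ i : Fin 12, (X i : MvPolynomial (Fin 12) ℤ).IsHomogeneous 1 := fun i =>
    isHomogeneous_X ℤ i
  have m : ∀ a b c : Fin 12, (X a * X b * X c : MvPolynomial (Fin 12) ℤ).IsHomogeneous 3 :=
    fun a b c => ((hX a).mul (hX b)).mul (hX c)
  have n : ∀ (t : ℤ) (a b c : Fin 12),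
      (C t * (X a * X b * X c) : MvPolynomial (Fin 12) ℤ).IsHomogeneous 3 := fun t a b c => by
    have h := (isHomogeneous_C (Fin 12) t).mul (m a b c)
    rwa [Nat.zero_add] at h
  have e : (norm3 (X i) (X j) (X k) : MvPolynomial (Fin 12) ℤ) =
      X i * X i * X i + X j * X j * X j + X k * X k * X k + C 2 * (X i * X i * X k) +
      X i * X k * X k - X i * X j * X j - X j * X k * X k - C 3 * (X i * X j * X k) := by
    unfold norm3
    have h2 : (C 2 : MvPolynomial (Fin 12) ℤ) = 2 := map_ofNat _ 2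
    have h3 : (C 3 : MvPolynomial (Fin 12) ℤ) = 3 := map_ofNat _ 3
    rw [h2, h3]
    ring
  rw [e]
  exact ((((((((m _ _ _).add (m _ _ _)).add (m _ _ _)).add (n _ _ _ _)).add (m _ _ _)).sub
    (m _ _ _)).sub (m _ _ _)).sub (n _ _ _ _))

lemma F_homog : F.IsHomogeneous 3 := by
  have hX : ∀ i : Fin 12, (X i : MvPolynomial (Fin 12) ℤ).IsHomogeneous 1 := fun i =>
    isHomogeneous_X ℤ i
  have hC : ∀ (c : ℤ) (p : MvPolynomial (Fin 12) ℤ), p.IsHomogeneous 3 →
      (C c * p).IsHomogeneous 3 := fun c p hp => by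
    have h := (isHomogeneous_C (Fin 12) c).mul hp
    rwa [Nat.zero_add] at h
  have h2 : (C 2 : MvPolynomial (Fin 12) ℤ) = 2 := map_ofNat _ 2
  have h4 : (C 4 : MvPolynomial (Fin 12) ℤ) = 4 := map_ofNat _ 4
  unfold F
  rw [← h2, ← h4]
  exact (((((norm3_homog _ _ _).add (hC _ _ (norm3_homog _ _ _))).add
    (hC _ _ (norm3_homog _ _ _))).add ((hX 9).mul ((hX 10).pow 2))).add
    (((hX 9).pow 2).mul (hX 11))).add (hC _ _ ((hX 10).mul ((hX 11).pow 2)))

lemma span_max : (Ideal.span {((2 : ℕ) : ℤ)}).IsMaximal := Int.ideal_span_isMaximal_of_prime 2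

lemma card_quot : Nat.card (ℤ ⧸ Ideal.span {((2 : ℕ) : ℤ)}) = 2 := by
  rw [Nat.card_congr (Int.quotientSpanNatEquivZMod 2).toEquiv, Nat.card_zmod]

lemma uniform (K : Type) [Field K] [NumberField K] (hK : ¬ 3 ∣ Module.finrank ℚ K) :
      map (Int.castRingHom K) F ≠ 0 ∧
      ∀ W : Submodule K (Fin 12 → K), Module.finrank K W = 2 →
        ∃ v ∈ W, eval v (map (Int.castRingHom K) F) ≠ 0 := by
  have hev : ∀ v : Fin 12 → K, eval v (map (Int.castRingHom K) F) =
      M 2 (fun i j => v (blk i j)) + G 2 (v 9) (v 10) (v 11) := by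
    intro v
    rw [← aeval_F, eval_map]
    rfl
  have key : ∀ W : Submodule K (Fin 12 → K), Module.finrank K W = 2 →
        ∃ v ∈ W, eval v (map (Int.castRingHom K) F) ≠ 0 := by
    intro W hW
    by_contra hcon
    push Not at hcon
    have hfd : FiniteDimensional K W := Module.finite_of_finrank_pos (by omega)
    let b := Module.finBasisOfFinrankEq K W hW
    refine no_line_nf hK (fun i j => (b 0 : Fin 12 → K) (blk i j))
      (fun i j => (b 1 : Fin 12 → K) (blk i j)) ((b 0 : Fin 12 → K) 9) ((b 0 : Fin 12 → K) 10)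
      ((b 0 : Fin 12 → K) 11) ((b 1 : Fin 12 → K) 9) ((b 1 : Fin 12 → K) 10)
      ((b 1 : Fin 12 → K) 11) ?_ ?_
    · intro s t
      have h1 := hcon _ (s • b 0 + t • b 1).2
      rw [hev] at h1
      exact h1
    · intro s t h1 h2 h3 h4
      have h5 : s • b 0 + t • b 1 = 0 := by
        apply Subtype.ext
        funext i
        rcases coord_cases i with ⟨j, l, rfl⟩ | rfl | rfl | rfl
        · exact h1 j l
        · exact h2
        · exact h3
        · exact h4
      have h6 : LinearIndependent K ![b 0, b 1] := by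
        have : ![b 0, b 1] = b := by
          funext i
          fin_cases i <;> rfl
        rw [this]
        exact b.linearIndependent
      exact LinearIndependent.pair_iff.1 h6 s t h5
  refine ⟨?_, key⟩
  intro h0
  have h1 : eval (fun i : Fin 12 => if i = 0 then (1 : K) else 0)
      (map (Int.castRingHom K) F) = 1 := by
    rw [hev]
    unfold M G N
    simp [blk]
  rw [h0] at h1
  simp at h1

/-- (1) `F` is a form of degree three, and for every number field `K` of degree not divisible by
three it is nonzero over `K` and does not vanish identically on any two-dimensional subspace of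
`K¹²`, that is, the cubic hypersurface `F = 0` contains no line defined over `K`.  (2) Over every
number field `K` there is a cubic form in 12 variables which does not vanish identically on any
two-dimensional subspace of `K¹²`. -/
theorem result : (F.IsHomogeneous 3 ∧
    ∀ (K : Type) [Field K] [NumberField K], ¬ 3 ∣ Module.finrank ℚ K →
      map (Int.castRingHom K) F ≠ 0 ∧
      ∀ W : Submodule K (Fin 12 → K), Module.finrank K W = 2 →
        ∃ v ∈ W, eval v (map (Int.castRingHom K) F) ≠ 0) ∧
    ∀ (K : Type) [Field K] [NumberField K], ∃ H : MvPolynomial (Fin 12) K,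
      H.IsHomogeneous 3 ∧ H ≠ 0 ∧ ∀ W : Submodule K (Fin 12 → K), Module.finrank K W = 2 →
        ∃ v ∈ W, eval v H ≠ 0 := by
  refine ⟨⟨F_homog, fun K _ _ hK => uniform K hK⟩, ?_⟩
  intro K _ _
  exact Pool.Agent.Y505.RM.anyField (R := ℤ) (K := ℚ) 2 span_max (by norm_num) card_quot K

end Pool.Agent.Results.MP_1ae330_nt.DegreePrimeToThree
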